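import Pool.Agent.X233.VM.Stm

set_option autoImplicit false

namespace Pool.Agent.X28.VM

open Cardinal

theorem t_EMB : Pool.Agent.X233.VM.S_EMB := by
  intro K _ _ _
  have hK : #K ≤ ℵ₀ := Cardinal.mk_le_aleph0
  have hR : #(MvPolynomial ℝ K) = 𝔠 := by
    rw [MvPolynomial.cardinalMk_eq_max, Cardinal.mk_real]
    rw [max_eq_right (hK.trans aleph0_le_continuum), max_eq_left aleph0_le_continuum]
  have hQ : #(FractionRing (MvPolynomial ℝ K)) = 𝔠 := by
    rw [IsFractionRing.cardinalMk (MvPolynomial ℝ K), hR]
  have hL : #(AlgebraicClosure (FractionRing (MvPolynomial ℝ K))) = 𝔠 := by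
    apply le_antisymm
    · refine (Algebra.IsAlgebraic.cardinalMk_le_max (FractionRing (MvPolynomial ℝ K)) _).trans ?_
      rw [hQ, max_eq_left aleph0_le_continuum]
    · rw [← hQ]
      exact Cardinal.mk_le_of_injective
        (algebraMap (FractionRing (MvPolynomial ℝ K)) (AlgebraicClosure (FractionRing (MvPolynomial ℝ K)))).injective
  have hC : CharZero (AlgebraicClosure (FractionRing (MvPolynomial ℝ K))) := by
    have h1 : CharZero (FractionRing (MvPolynomial ℝ K)) :=
      charZero_of_injective_algebraMap (IsFractionRing.injective (MvPolynomial ℝ K) (FractionRing (MvPolynomial ℝ K)))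
    exact charZero_of_injective_algebraMap
      (algebraMap (FractionRing (MvPolynomial ℝ K)) (AlgebraicClosure (FractionRing (MvPolynomial ℝ K)))).injective
  obtain ⟨e⟩ := IsAlgClosed.ringEquiv_of_equiv_of_charZero
    (K := AlgebraicClosure (FractionRing (MvPolynomial ℝ K))) (L := ℂ)
    (by rw [hL]; exact aleph0_lt_continuum) (Cardinal.eq.1 (hL.trans Cardinal.mk_complex.symm))
  exact ⟨e.toRingHom.comp ((algebraMap (FractionRing (MvPolynomial ℝ K)) _).comp
    ((algebraMap (MvPolynomial ℝ K) (FractionRing (MvPolynomial ℝ K))).comp MvPolynomial.C))⟩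

theorem t_SUB : Pool.Agent.X233.VM.S_SUB := by
  intro p _ S n
  obtain ⟨T, hT⟩ := Infinite.exists_subset_card_eq (AlgebraicClosure (ZMod p)) n
  let E : IntermediateField (ZMod p) (AlgebraicClosure (ZMod p)) :=
    IntermediateField.adjoin (ZMod p) ((S : Set (AlgebraicClosure (ZMod p))) ∪ T)
  have hfd : FiniteDimensional (ZMod p) E := by
    have : Finite ((S : Set (AlgebraicClosure (ZMod p))) ∪ (T : Set (AlgebraicClosure (ZMod p))) : Set _) :=
      (S.finite_toSet.union T.finite_toSet)
    exact IntermediateField.finiteDimensional_adjoin fun x _ => Algebra.IsIntegral.isIntegral x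
  have hfin : Finite E := Module.finite_of_finite (ZMod p)
  refine ⟨E.toSubfield, hfin, fun x hx => ?_, ?_⟩
  · exact IntermediateField.subset_adjoin _ _ (Or.inl hx)
  · have h1 : ∀ x : T, (x : AlgebraicClosure (ZMod p)) ∈ E.toSubfield := fun x =>
      IntermediateField.subset_adjoin _ _ (Or.inr x.2)
    have hf : Finite E.toSubfield := hfin
    have h2 : Nat.card T ≤ Nat.card E.toSubfield :=
      Nat.card_le_card_of_injective (fun x : T => (⟨x, h1 x⟩ : E.toSubfield)) (by
        intro x y hxy
        have h3 := congrArg (fun z : E.toSubfield => (z : AlgebraicClosure (ZMod p))) hxy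
        exact Subtype.ext h3)
    rw [Nat.card_eq_fintype_card, Fintype.card_coe, hT] at h2
    exact h2

end Pool.Agent.X28.VM
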